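import Pool.Agent.Helper62.IX.Stm

/-!
# The Hasse-Witt functionals on the kernel of the residue at infinity: horizontality, degrees
-/

set_option autoImplicit false

open Polynomial Matrix Finset

namespace Pool.Agent.Helper72.IX

open Pool.Agent.Helper62.BM Pool.Agent.Helper62.BW Pool.Agent.Helper62.BX Pool.Agent.Helper62.CX
open Pool.Agent.Helper62.GX Pool.Agent.Helper62.HX Pool.Agent.Helper62.JX Pool.Agent.Helper62.IX

theorem i_HWb (hB : G_HWb) : I_HWb := by
  intro ι _ _ R _ p _ _ m d n ρ c hm hρ a T hT W P S hR hH i l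
  have hY := hB ι R p m d (n + 1) ρ hm hρ a W P S hR i
  generalize hYg : (fun k => YG p (fun j => ρ j * ((p - 1) / m)) d (n + 1) a i k) = Y at hY
  have hY' : ∀ k, YG p (fun j => ρ j * ((p - 1) / m)) d (n + 1) a i k = Y k := fun k =>
    congrFun hYg k
  simp only [hY'] at hY
  have hYI : ∀ k, YI c T p (fun j => ρ j * ((p - 1) / m)) d a i k =
      Y (c.succAbove k) - res c T (c.succAbove k) * Y c := by
    intro k
    unfold YI
    rw [Matrix.of_apply, hY', hY']
  have hMI : ∀ j k, MI c T (Mc P S) j k = Mc P S (c.succAbove j) (c.succAbove k) -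
      res c T (c.succAbove k) * Mc P S (c.succAbove j) c := fun j k => rfl
  have hrc : res c T (c : ℕ) = 1 := by
    unfold res
    rw [if_neg (lt_irrefl _), Nat.sub_self, hT]
  have hc := hH c
  rw [hrc, derivative_one, mul_zero] at hc
  have hl := hH (c.succAbove l)
  rw [hYI]
  simp only [hYI, hMI]
  have h1 : ∑ j : Fin n, (Y (c.succAbove j) - res c T (c.succAbove j) * Y c) *
      (Mc P S (c.succAbove j) (c.succAbove l) -
        res c T (c.succAbove l) * Mc P S (c.succAbove j) c) =
      ∑ k : Fin (n + 1), (Y k - res c T k * Y c) *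
        (Mc P S k (c.succAbove l) - res c T (c.succAbove l) * Mc P S k c) := by
    rw [Fin.sum_univ_succAbove _ c, hrc, one_mul, sub_self, zero_mul, zero_add]
  have h2 : ∑ k : Fin (n + 1), (Y k - res c T k * Y c) *
        (Mc P S k (c.succAbove l) - res c T (c.succAbove l) * Mc P S k c) =
      ∑ k, Y k * Mc P S k (c.succAbove l) - res c T (c.succAbove l) * ∑ k, Y k * Mc P S k c -
        Y c * ∑ k : Fin (n + 1), res c T k * Mc P S k (c.succAbove l) +
        Y c * res c T (c.succAbove l) * ∑ k : Fin (n + 1), res c T k * Mc P S k c := by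
    rw [Finset.mul_sum, Finset.mul_sum, Finset.mul_sum, ← Finset.sum_sub_distrib,
      ← Finset.sum_sub_distrib, ← Finset.sum_add_distrib]
    refine Finset.sum_congr rfl fun k _ => ?_
    ring
  rw [h1, h2, ← hc, ← hl, ← hY, ← hY, derivative_sub, derivative_mul]
  ring

theorem i_HWdeg (hD : G_HWdeg) : I_HWdeg := by
  intro ι _ _ R _ p d n U q c a T hp ha hT hq i l
  have h1 := fun k => hD ι R p d (n + 1) U q a ha hq i k
  have h2 : (res c T (c.succAbove l)).natDegree ≤ U := by
    unfold res
    split_ifs
    · rw [natDegree_zero]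
      exact Nat.zero_le _
    · exact hT _
  have h3 : YI c T p q d a i l = YG p q d (n + 1) a i (c.succAbove l) -
      res c T (c.succAbove l) * YG p q d (n + 1) a i c := rfl
  rw [h3]
  refine (natDegree_sub_le _ _).trans (max_le ?_ ?_)
  · refine (h1 _).trans (Nat.mul_le_mul_right _ (Nat.mul_le_mul_left _ (Nat.le_succ _)))
  · refine natDegree_mul_le.trans ((Nat.add_le_add h2 (h1 c)).trans ?_)
    calc U + U * Fintype.card ι * p ≤ U * p + U * Fintype.card ι * p :=
          Nat.add_le_add_right (Nat.le_mul_of_pos_right _ hp) _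
      _ = U * (Fintype.card ι + 1) * p := by ring

end Pool.Agent.Helper72.IX
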